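import Pool.Agent.Q264.DB.Main

/-!
The least positive integer `h n` which is not a sum of at most `n` numbers `2^i 3^j` satisfies
`log (h n) ~ n log n`; more precisely
`n (log₂ n + log₂ log₂ n - 10) ≤ log₂ (h n) ≤ n (log₂ n + 2 log₂ log₂ n + 7)` for large `n`.
-/

namespace Pool.Agent.Results.MP_126cd2_nt.LogAsymptotic

open Filter Real Topology Pool.Agent.Q264.DB

theorem result :
    -- `h n` is the least positive integer that is not a sum of at most `n` 3-smooth numbers
    (∀ n : ℕ, IsLeast {m : ℕ | 0 < m ∧ ¬ Rep n m} (h n)) ∧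
    -- two-sided estimate
    (∃ n₀ : ℕ, ∀ n : ℕ, n₀ ≤ n →
      n * (logb 2 n + logb 2 (logb 2 n) - 10) ≤ logb 2 (h n : ℝ) ∧
      logb 2 (h n : ℝ) ≤ n * (logb 2 n + 2 * logb 2 (logb 2 n) + 7)) ∧
    -- `log (h n)` is asymptotic to `n log n`
    Tendsto (fun n : ℕ => Real.log (h n : ℝ) / (n * Real.log n)) atTop (𝓝 1) :=
  ⟨h_isLeast, two_sided, main_tendsto⟩

end Pool.Agent.Results.MP_126cd2_nt.LogAsymptotic
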